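import Mathlib

set_option autoImplicit false

namespace Pool.Agent.Results.MP_67ce71_gt.Counter

section
variable {X : Type} [TopologicalSpace X]

def TotalPre (r : X → X → Prop) : Prop :=
  (∀ x, r x x) ∧ (∀ x y z, r x y → r y z → r x z) ∧ ∀ x y, r x y ∨ r y x

def LowerSC (r : X → X → Prop) : Prop := ∀ x, IsOpen {y | r x y ∧ ¬ r y x}
def UpperSC (r : X → X → Prop) : Prop := ∀ x, IsOpen {y | r y x ∧ ¬ r x y}
def Rep (r : X → X → Prop) (u : X → ℝ) : Prop := ∀ x y, r x y ↔ u x ≤ u y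
end

def SRP (X : Type) [TopologicalSpace X] : Prop :=
  (∀ r : X → X → Prop, TotalPre r → LowerSC r → ∃ u, Rep r u ∧ ∀ a, IsOpen {x | a < u x}) ∧
  (∀ r : X → X → Prop, TotalPre r → UpperSC r → ∃ u, Rep r u ∧ ∀ a, IsOpen {x | u x < a})

def CRP (X : Type) [TopologicalSpace X] : Prop :=
  ∀ r : X → X → Prop, TotalPre r → LowerSC r → UpperSC r → ∃ u, Rep r u ∧ Continuous u

def HCRP (X : Type) [TopologicalSpace X] : Prop := ∀ Y : Set X, Y.Nonempty → CRP Y

theorem result : ∃ (X : Type) (_ : TopologicalSpace X), HCRP X ∧ ¬ SRP X := by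
  letI : TopologicalSpace (ℝ ×ₗ Bool) := Topology.upperSet _
  have hop : ∀ s : Set (ℝ ×ₗ Bool), IsOpen s ↔ IsUpperSet s := fun _ => Iff.rfl
  refine ⟨ℝ ×ₗ Bool, inferInstance, ?_, ?_⟩
  · rintro Y - r ⟨h1, -, h3⟩ hl hu
    have key : ∀ x y, r x y → r y x := by
      intro x y hxy
      by_contra hn
      obtain ⟨s, hs, es⟩ := isOpen_induced_iff.mp (hl x)
      obtain ⟨t, ht, et⟩ := isOpen_induced_iff.mp (hu y)
      have hy : y ∈ Subtype.val ⁻¹' s := es ▸ ⟨hxy, hn⟩
      have hx : x ∈ Subtype.val ⁻¹' t := et ▸ ⟨hxy, hn⟩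
      rcases ((hop s).mp hs).total ((hop t).mp ht) with h | h
      · have : y ∈ Subtype.val ⁻¹' t := h hy
        rw [et] at this; exact this.2 this.1
      · have : x ∈ Subtype.val ⁻¹' s := h hx
        rw [es] at this; exact this.2 this.1
    refine ⟨fun _ => 0, fun x y => ⟨fun _ => le_rfl, fun _ => ?_⟩, continuous_const⟩
    exact (h3 x y).elim id (key y x)
  · rintro ⟨h, -⟩
    obtain ⟨u, hu, -⟩ := h (· ≤ ·) ⟨le_refl, fun _ _ _ => le_trans, le_total⟩ (fun x => by
      rw [hop]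
      intro a b hab ha
      exact ⟨ha.1.trans hab, fun h => ha.2 (hab.trans h)⟩)
    have hlt : ∀ x y, x < y → u x < u y := fun x y hxy =>
      lt_of_not_ge fun h => hxy.not_ge ((hu y x).mpr h)
    have hq : ∀ x : ℝ, ∃ q : ℚ, u (toLex (x, false)) < q ∧ q < u (toLex (x, true)) := fun x =>
      exists_rat_btwn (hlt _ _ (Prod.Lex.toLex_lt_toLex.mpr (Or.inr ⟨rfl, Bool.false_lt_true⟩)))
    choose q hq using hq
    have hm : StrictMono q := fun x y hxy => by
      have := hlt (toLex (x, true)) (toLex (y, false)) (Prod.Lex.toLex_lt_toLex.mpr (Or.inl hxy))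
      exact_mod_cast ((hq x).2.trans this).trans (hq y).1
    exact not_countable hm.injective.countable

end Pool.Agent.Results.MP_67ce71_gt.Counter
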