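import Mathlib
import Pool.Agent.H17.W1

namespace Pool.Agent.Results.MP_67ce71_gt.Neg

open Set Topology

/-- Reflexive, transitive, complete. -/
def TotPre {X : Type*} (R : X → X → Prop) : Prop :=
  (∀ x, R x x) ∧ (∀ x y z, R x y → R y z → R x z) ∧ ∀ x y, R x y ∨ R y x

def LowerSC {X : Type*} [TopologicalSpace X] (R : X → X → Prop) : Prop :=
  ∀ x, IsOpen {y | R x y ∧ ¬ R y x}

def UpperSC {X : Type*} [TopologicalSpace X] (R : X → X → Prop) : Prop :=
  ∀ x, IsOpen {y | R y x ∧ ¬ R x y}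

def Represents {X : Type*} (R : X → X → Prop) (u : X → ℝ) : Prop := ∀ x y, R x y ↔ u x ≤ u y

def SRP (X : Type*) [TopologicalSpace X] : Prop :=
  (∀ R : X → X → Prop, TotPre R → LowerSC R →
    ∃ u, Represents R u ∧ ∀ a : ℝ, IsOpen {x | a < u x}) ∧
  ∀ R : X → X → Prop, TotPre R → UpperSC R →
    ∃ u, Represents R u ∧ ∀ a : ℝ, IsOpen {x | u x < a}

def CRP (X : Type*) [TopologicalSpace X] : Prop :=
  ∀ R : X → X → Prop, TotPre R → LowerSC R → UpperSC R → ∃ u, Represents R u ∧ Continuous u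

def HCRP (X : Type*) [TopologicalSpace X] : Prop := ∀ Y : Set X, Y.Nonempty → CRP Y

open Pool.Agent.H17.W1

def X : Type := W

instance : TopologicalSpace X where
  IsOpen U := U.Nonempty → Uᶜ.Countable
  isOpen_univ := fun _ => by simp
  isOpen_inter := fun s t hs ht h => by
    rw [compl_inter]; exact (hs (h.mono inter_subset_left)).union (ht (h.mono inter_subset_right))
  isOpen_sUnion := fun _ hs ⟨x, t, ht, h⟩ =>
    (hs t ht ⟨x, h⟩).mono (compl_subset_compl.2 (subset_sUnion_of_mem ht))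

lemma rep {Y : Type} [Countable Y] (R : Y → Y → Prop) (h : TotPre R) : ∃ u, Represents R u := by
  classical
  obtain ⟨e, he⟩ := exists_injective_nat Y
  have s0 : Summable fun y => (1 / 2 : ℝ) ^ e y := summable_geometric_two.comp_injective he
  let w : Y → Y → ℝ := fun x y => if R y x then (1 / 2 : ℝ) ^ e y else 0
  have s1 : ∀ x, Summable (w x) := fun x =>
    s0.of_nonneg_of_le (fun y => by simp only [w]; split_ifs <;> positivity)
      fun y => by simp only [w]; split_ifs <;> [rfl; positivity]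
  have m : ∀ x y, R x y → ∀ z, w x z ≤ w y z := fun x y hxy z => by
    simp only [w]
    split_ifs with h1 h2
    · rfl
    · exact absurd (h.2.1 _ _ _ h1 hxy) h2
    · positivity
    · rfl
  refine ⟨fun x => ∑' y, w x y, fun x y => ⟨fun hxy => (s1 x).tsum_le_tsum (m x y hxy) (s1 y),
    fun hu => ?_⟩⟩
  by_contra hn
  refine absurd hu (not_le.2 ((s1 y).tsum_lt_tsum (i := x)
    (m y x ((h.2.2 x y).resolve_left hn)) ?_ (s1 x)))
  simp only [w, if_neg hn, if_pos (h.1 x)]
  positivity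

theorem result : ∃ (X : Type) (_ : TopologicalSpace X), T1Space X ∧ HCRP X ∧ ¬ SRP X := by
  refine ⟨X, inferInstance, ⟨fun x => ⟨fun _ => by simp⟩⟩, fun Y _ R hR h1 h2 => ?_, fun h => ?_⟩
  · by_cases hY : Y.Countable
    · have := hY.to_subtype
      have : DiscreteTopology Y := by
        refine discreteTopology_iff_isOpen_singleton.2 fun y => isOpen_induced_iff.2
          ⟨(Y \ {y.1})ᶜ, fun _ => by rw [compl_compl]; exact hY.mono sdiff_subset, ?_⟩
        ext z
        simp [Subtype.ext_iff]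
      obtain ⟨u, hu⟩ := rep R hR
      exact ⟨u, hu, continuous_of_discreteTopology⟩
    · have key : ∀ U V : Set Y, IsOpen U → IsOpen V → U.Nonempty → V.Nonempty →
          (U ∩ V).Nonempty := by
        rintro _ _ ⟨U, hU, rfl⟩ ⟨V, hV, rfl⟩ ⟨a, ha⟩ ⟨b, hb⟩
        by_contra hn
        refine hY (((hU ⟨a, ha⟩).union (hV ⟨b, hb⟩)).mono fun y hy => ?_)
        by_contra h3
        simp only [mem_union, mem_compl_iff, not_or, not_not] at h3
        exact hn ⟨⟨y, hy⟩, h3⟩
      refine ⟨fun _ => 0, fun x y => ⟨fun _ => le_rfl, fun _ => ?_⟩, continuous_const⟩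
      by_contra hn
      have hyx := (hR.2.2 x y).resolve_left hn
      obtain ⟨z, z1, z2⟩ := key _ _ (h1 y) (h2 x) ⟨x, hyx, hn⟩ ⟨y, hyx, hn⟩
      obtain ⟨t, t1, t2⟩ := key _ _ (h1 z) (h2 z) ⟨x, z2⟩ ⟨y, z1⟩
      exact t1.2 t2.1
  · obtain ⟨u, hu, -⟩ := h.1 (fun x y : W => x ≤ y)
      ⟨fun _ => le_rfl, fun _ _ _ => le_trans, fun x y : W => le_total x y⟩ fun (x : W) _ =>
        (cIic x).mono fun (y : W) hy => by
          by_contra h3
          have h4 : x < y := not_le.1 h3
          exact hy ⟨h4.le, not_le.2 h4⟩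
    have h1 : ∀ x : W, ∃ q : ℚ, u x < q ∧ ∀ y, x < y → (q : ℝ) < u y := by
      intro x
      obtain ⟨y, hy, hm⟩ := wellFounded_lt.has_min (Ioi x) (exists_gt x)
      have h2 : u x < u y := not_le.1 fun h => absurd ((hu y x).2 h) (not_le.2 hy)
      obtain ⟨q, q1, q2⟩ := exists_rat_btwn h2
      exact ⟨q, q1, fun z hz => q2.trans_le ((hu y z).1 (not_lt.1 (hm z hz)))⟩
    choose q q1 q2 using h1
    have h3 : StrictMono q := fun x y hxy => by exact_mod_cast (q2 x y hxy).trans (q1 y)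
    exact not_countable h3.injective.countable

end Pool.Agent.Results.MP_67ce71_gt.Neg
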